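import Pool.Agent.Helper37.ETC.Defs

/-!
# ETC-O6: conjugacy of the extensions of a valuation ring (helper43)

`G` acts transitively on the valuation rings of `K` with the same trace on the fixed field.
Let `R` be the ring of all `x` with `σ x ∈ A ∩ B` for all `σ`; it is invariant, and for every `x`
in `K` there are `y, z ∈ R` with `y x = z` such that `y` is a unit at every valuation ring (among
the conjugates of `A` and `B`) which contains `x`.  Hence the valuation rings are determined by
their centres on `R`, and `G` acts transitively on the primes of `R` over a prime of `R^G`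
(Mathlib).
-/

set_option autoImplicit false
set_option linter.unusedSectionVars false
set_option linter.style.haveILetI false

namespace Pool.Helper37.ETC

section YZ

variable {K : Type*} [Field K]

/-- the upper part of the polynomial -/
private def yy (b : ℕ → K) (k m : ℕ) (w : K) : K := ∑ j ∈ Finset.range m, b (k + j) * w ^ j

/-- the lower part of the polynomial -/
private def zz (b : ℕ → K) (k : ℕ) (w : K) : K :=
  - ∑ j ∈ Finset.range k, b j * w⁻¹ ^ (k - 1 - j)

private theorem yz_eq (b : ℕ → K) (k m : ℕ) {w : K} (hw : w ≠ 0)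
    (h : ∑ i ∈ Finset.range (k + m), b i * w ^ i = 0) : yy b k m w * w = zz b k w := by
  rw [Finset.sum_range_add] at h
  cases k with
  | zero =>
    simp only [Finset.range_zero, Finset.sum_empty, zero_add] at h
    simp [yy, zz, h]
  | succ k =>
    have h1 : w ^ (k + 1) * yy b (k + 1) m w = - ∑ i ∈ Finset.range (k + 1), b i * w ^ i := by
      rw [eq_neg_iff_add_eq_zero, add_comm, ← h, yy, Finset.mul_sum]
      congr 1
      apply Finset.sum_congr rfl
      intro j _
      ring
    have h2 : yy b (k + 1) m w * w = w⁻¹ ^ k * (w ^ (k + 1) * yy b (k + 1) m w) := by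
      have : w⁻¹ ^ k * w ^ k = 1 := by rw [← mul_pow, inv_mul_cancel₀ hw, one_pow]
      calc yy b (k + 1) m w * w = 1 * (yy b (k + 1) m w * w) := (one_mul _).symm
        _ = w⁻¹ ^ k * w ^ k * (yy b (k + 1) m w * w) := by rw [this]
        _ = w⁻¹ ^ k * (w ^ (k + 1) * yy b (k + 1) m w) := by ring
    rw [h2, h1, zz, mul_neg, Finset.mul_sum]
    congr 1
    apply Finset.sum_congr rfl
    intro j hj
    have hj' : j ≤ k := by have := Finset.mem_range.1 hj; omega
    have e1 : w⁻¹ ^ k = w⁻¹ ^ j * w⁻¹ ^ (k + 1 - 1 - j) := by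
      rw [← pow_add]; congr 1; omega
    have e2 : w⁻¹ ^ j * w ^ j = 1 := by rw [← mul_pow, inv_mul_cancel₀ hw, one_pow]
    calc w⁻¹ ^ k * (b j * w ^ j) = b j * (w⁻¹ ^ j * w ^ j) * w⁻¹ ^ (k + 1 - 1 - j) := by
          rw [e1]; ring
      _ = b j * w⁻¹ ^ (k + 1 - 1 - j) := by rw [e2, mul_one]

private theorem yz_mem (W : ValuationSubring K) {b : ℕ → K} (hb : ∀ i, b i ∈ W) (k m : ℕ) {w : K}
    (hw : w ≠ 0) (h : ∑ i ∈ Finset.range (k + m), b i * w ^ i = 0) :
    yy b k m w ∈ W ∧ zz b k w ∈ W := by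
  have e := yz_eq b k m hw h
  rcases W.mem_or_inv_mem w with h1 | h1
  · have hy : yy b k m w ∈ W :=
      sum_mem fun j _ => W.mul_mem _ _ (hb _) (pow_mem h1 _)
    exact ⟨hy, e ▸ W.mul_mem _ _ hy h1⟩
  · have hz : zz b k w ∈ W :=
      neg_mem (sum_mem fun j _ => W.mul_mem _ _ (hb _) (pow_mem h1 _))
    refine ⟨?_, hz⟩
    have e2 : yy b k m w = zz b k w * w⁻¹ := by
      rw [← e, mul_assoc, mul_inv_cancel₀ hw, mul_one]
    rw [e2]
    exact W.mul_mem _ _ hz h1

private theorem y_unit (W : ValuationSubring K) {b : ℕ → K} (k m : ℕ) (hk : b k = 1)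
    (hlt : ∀ j, 0 < j → W.valuation (b (k + j)) < 1) {w : K} (hw : w ∈ W) :
    ¬ W.valuation (yy b k (m + 1) w) < 1 := by
  have e : yy b k (m + 1) w = 1 + ∑ j ∈ Finset.range m, b (k + (j + 1)) * w ^ (j + 1) := by
    rw [yy, Finset.sum_range_succ', add_comm]
    simp [hk]
  have h1 : W.valuation (∑ j ∈ Finset.range m, b (k + (j + 1)) * w ^ (j + 1)) < 1 := by
    apply Valuation.map_sum_lt _ one_ne_zero
    intro j _
    rw [map_mul]
    calc W.valuation (b (k + (j + 1))) * W.valuation (w ^ (j + 1))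
        ≤ W.valuation (b (k + (j + 1))) * 1 := by
          gcongr
          exact (W.valuation_le_one_iff _).2 (pow_mem hw _)
      _ = W.valuation (b (k + (j + 1))) := mul_one _
      _ < 1 := hlt _ (Nat.succ_pos j)
  rw [e, (W.valuation).map_one_add_of_lt h1]
  exact lt_irrefl _

end YZ

section O6

variable {p : ℕ} [Fact p.Prime] {G K : Type*} [Group G] [TopologicalSpace G]
  [IsTopologicalGroup G] [CompactSpace G] [T2Space G] [TotallyDisconnectedSpace G] [Field K]
  [MulSemiringAction G K] {ζ : K}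

private theorem smul_yy (σ : G) {b : ℕ → K} (hb : ∀ i, σ • b i = b i) (k m : ℕ) (w : K) :
    σ • yy b k m w = yy b k m (σ • w) := by
  simp only [yy, Finset.smul_sum, smul_mul', smul_pow', hb]

private theorem smul_zz (σ : G) {b : ℕ → K} (hb : ∀ i, σ • b i = b i) (k : ℕ) (w : K) :
    σ • zz b k w = zz b k (σ • w) := by
  simp only [zz, smul_neg, Finset.smul_sum, smul_mul', smul_pow', hb, smul_inv'']

/-- `K` is integral over the fixed field -/
private theorem o6_integral (hc : ∀ x : K, IsOpen {σ : G | σ • x = x}) (x : K) :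
    IsIntegral (Fxs G K) x := by
  letI : TopologicalSpace K := ⊥
  haveI : DiscreteTopology K := ⟨rfl⟩
  haveI : ContinuousSMul G K := by
    rw [continuousSMul_iff_stabilizer_isOpen]
    exact hc
  haveI : Algebra.IsInvariant (Fxs G K) K G := ⟨fun b hb => ⟨⟨b, hb⟩, rfl⟩⟩
  exact (Algebra.IsInvariant.isIntegral_of_profinite (A := Fxs G K) (B := K) (G := G)).1 x

/-- normalised polynomial relation -/
private theorem o6_poly (hc : ∀ x : K, IsOpen {σ : G | σ • x = x})
    (V : ValuationSubring (Fxs G K)) (x : K) :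
    ∃ (b : ℕ → Fxs G K) (k m : ℕ), (∀ i, b i ∈ V) ∧ b k = 1 ∧
      (∀ j, 0 < j → V.valuation (b (k + j)) < 1) ∧
      ∑ i ∈ Finset.range (k + (m + 1)), (b i : K) * x ^ i = 0 := by
  obtain ⟨f, hf, hfx⟩ := o6_integral hc x
  have hf0 : f ≠ 0 := hf.ne_zero
  have hne : f.support.Nonempty := Polynomial.support_nonempty.2 hf0
  obtain ⟨k, hk, hmax⟩ := Finset.exists_max_image f.support
    (fun i => toLex (V.valuation (f.coeff i), i)) hne
  have hk0 : f.coeff k ≠ 0 := Polynomial.mem_support_iff.1 hk
  have hvk : 0 < V.valuation (f.coeff k) := by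
    rw [zero_lt_iff]
    exact (Valuation.ne_zero_iff _).2 hk0
  have hle : ∀ i, V.valuation (f.coeff i) ≤ V.valuation (f.coeff k) := by
    intro i
    by_cases hi : i ∈ f.support
    · rcases (Prod.Lex.toLex_le_toLex).1 (hmax i hi) with h1 | h1
      · exact h1.le
      · exact h1.1.le
    · rw [Polynomial.notMem_support_iff.1 hi, map_zero]
      exact zero_le
  have hlt : ∀ i, k < i → V.valuation (f.coeff i) < V.valuation (f.coeff k) := by
    intro i hki
    by_cases hi : i ∈ f.support
    · rcases (Prod.Lex.toLex_le_toLex).1 (hmax i hi) with h1 | h1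
      · exact h1
      · exact absurd h1.2 (not_le.2 hki)
    · rw [Polynomial.notMem_support_iff.1 hi, map_zero]
      exact hvk
  have hkd : k ≤ f.natDegree := Polynomial.le_natDegree_of_mem_supp k hk
  refine ⟨fun i => f.coeff i / f.coeff k, k, f.natDegree - k, ?_, div_self hk0, ?_, ?_⟩
  · intro i
    rw [← V.valuation_le_one_iff, map_div₀]
    exact div_le_one_of_le₀ (hle i) zero_le
  · intro j hj
    rw [map_div₀]
    exact (div_lt_one₀ hvk).2 (hlt _ (by omega))
  · have e1 : k + (f.natDegree - k + 1) = f.natDegree + 1 := by omega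
    rw [e1]
    have e2 : ∑ i ∈ Finset.range (f.natDegree + 1), (f.coeff i : K) * x ^ i = 0 := by
      rw [← hfx, Polynomial.eval₂_eq_sum_range]
      rfl
    have e3 : ∀ i, ((f.coeff i / f.coeff k : Fxs G K) : K) * x ^ i =
        (f.coeff k : K)⁻¹ * ((f.coeff i : K) * x ^ i) := by
      intro i
      push_cast
      ring
    simp only [e3]
    rw [← Finset.mul_sum, e2, mul_zero]

/-- the invariant ring -/
private def RR (G : Type*) {K : Type*} [Group G] [Field K] [MulSemiringAction G K]
    (A B : ValuationSubring K) : Subring K where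
  carrier := {x | ∀ σ : G, σ • x ∈ A ∧ σ • x ∈ B}
  mul_mem' {x y} hx hy σ := by
    rw [smul_mul']
    exact ⟨A.mul_mem _ _ (hx σ).1 (hy σ).1, B.mul_mem _ _ (hx σ).2 (hy σ).2⟩
  one_mem' σ := by rw [smul_one]; exact ⟨A.one_mem, B.one_mem⟩
  add_mem' {x y} hx hy σ := by
    rw [smul_add]
    exact ⟨A.add_mem _ _ (hx σ).1 (hy σ).1, B.add_mem _ _ (hx σ).2 (hy σ).2⟩
  zero_mem' σ := by rw [smul_zero]; exact ⟨A.zero_mem, B.zero_mem⟩
  neg_mem' {x} hx σ := by
    rw [smul_neg]
    exact ⟨A.neg_mem _ (hx σ).1, B.neg_mem _ (hx σ).2⟩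

private theorem mem_RR {A B : ValuationSubring K} {x : K} :
    x ∈ RR G A B ↔ ∀ σ : G, σ • x ∈ A ∧ σ • x ∈ B := Iff.rfl

private theorem o6_val (W : ValuationSubring K) (c : Fxs G K) :
    W.valuation (c : K) < 1 ↔ (res G W).valuation c < 1 := by
  rw [← ValuationSubring.mem_nonunits_iff, ← ValuationSubring.mem_nonunits_iff,
    ValuationSubring.mem_nonunits_iff_or, ValuationSubring.mem_nonunits_iff_or]
  have e1 : ((c : K) = 0) ↔ c = 0 := by
    constructor
    · intro h; exact Subtype.ext h
    · rintro rfl; rfl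
  rw [e1]
  rfl

/-- the key property of the invariant ring -/
private theorem o6_yz (hc : ∀ x : K, IsOpen {σ : G | σ • x = x}) (A B : ValuationSubring K)
    (h : res G A = res G B) (x : K) :
    ∃ y ∈ RR G A B, ∃ z ∈ RR G A B, y * x = z ∧ (x ∈ A → ¬ A.valuation y < 1) ∧
      ∀ σ : G, σ • x ∈ B → ¬ B.valuation (σ • y) < 1 := by
  by_cases hx : x = 0
  · refine ⟨1, (RR G A B).one_mem, 0, (RR G A B).zero_mem, by rw [hx, mul_zero], ?_, ?_⟩
    · intro _; simp
    · intro σ _; simp
  obtain ⟨b, k, m, hb, hk, hlt, hsum⟩ := o6_poly hc (res G A) x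
  have hfix : ∀ (σ : G) (i : ℕ), σ • (b i : K) = (b i : K) := fun σ i => (b i).2 σ
  have hbA : ∀ i, (b i : K) ∈ A := fun i => hb i
  have hbB : ∀ i, (b i : K) ∈ B := fun i => by
    have : b i ∈ res G B := h ▸ hb i
    exact this
  have hltA : ∀ j, 0 < j → A.valuation (b (k + j) : K) < 1 := fun j hj =>
    (o6_val A _).2 (hlt j hj)
  have hltB : ∀ j, 0 < j → B.valuation (b (k + j) : K) < 1 := fun j hj =>
    (o6_val B _).2 (h ▸ hlt j hj)
  have hσ : ∀ σ : G, ∑ i ∈ Finset.range (k + (m + 1)), (b i : K) * (σ • x) ^ i = 0 := by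
    intro σ
    have := congrArg (fun t => σ • t) hsum
    simpa only [Finset.smul_sum, smul_mul', smul_pow', hfix, smul_zero] using this
  have hσ0 : ∀ σ : G, σ • x ≠ 0 := fun σ => by
    intro h0
    apply hx
    have := congrArg (fun t => σ⁻¹ • t) h0
    simpa using this
  refine ⟨yy (fun i => (b i : K)) k (m + 1) x, ?_, zz (fun i => (b i : K)) k x, ?_,
    yz_eq _ k (m + 1) hx hsum, ?_, ?_⟩
  · rw [mem_RR]
    intro σ
    rw [smul_yy σ (hfix σ)]
    exact ⟨(yz_mem A hbA k (m + 1) (hσ0 σ) (hσ σ)).1, (yz_mem B hbB k (m + 1) (hσ0 σ) (hσ σ)).1⟩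
  · rw [mem_RR]
    intro σ
    rw [smul_zz σ (hfix σ)]
    exact ⟨(yz_mem A hbA k (m + 1) (hσ0 σ) (hσ σ)).2, (yz_mem B hbB k (m + 1) (hσ0 σ) (hσ σ)).2⟩
  · intro hxA
    exact y_unit A k m (by simp [hk]) hltA hxA
  · intro σ hxB
    rw [smul_yy σ (hfix σ)]
    exact y_unit B k m (by simp [hk]) hltB hxB

/-- O6 (conjugacy) -/
theorem exists_conj (hc : ∀ x : K, IsOpen {σ : G | σ • x = x}) (A B : ValuationSubring K)
    (h : res G A = res G B) : ∃ σ : G, ∀ x : K, x ∈ A ↔ σ • x ∈ B := by
  -- the invariant ring with its action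
  haveI hinv : IsInvariantSubring G (RR G A B) := ⟨fun g x hx σ => by
    rw [← mul_smul]
    exact hx (σ * g)⟩
  letI : TopologicalSpace (RR G A B) := ⊥
  haveI : DiscreteTopology (RR G A B) := ⟨rfl⟩
  haveI : ContinuousSMul G (RR G A B) := by
    rw [continuousSMul_iff_stabilizer_isOpen]
    intro x
    have e : (MulAction.stabilizer G x : Set G) = {σ : G | σ • (x : K) = x} := by
      ext σ
      exact Subtype.ext_iff
    rw [e]
    exact hc x
  let S0 : Subring (RR G A B) :=
    { carrier := {r | ∀ σ : G, σ • r = r}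
      mul_mem' := fun {x y} hx hy σ => by rw [smul_mul', hx σ, hy σ]
      one_mem' := fun σ => smul_one σ
      add_mem' := fun {x y} hx hy σ => by rw [smul_add, hx σ, hy σ]
      zero_mem' := fun σ => smul_zero σ
      neg_mem' := fun {x} hx σ => by rw [smul_neg, hx σ] }
  haveI : SMulCommClass G S0 (RR G A B) := ⟨fun g s r => by
    change g • ((s : RR G A B) * r) = (s : RR G A B) * g • r
    rw [smul_mul', s.2 g]⟩
  haveI : Algebra.IsInvariant S0 (RR G A B) G := ⟨fun b hb => ⟨⟨b, hb⟩, rfl⟩⟩
  -- the centres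
  let cen (W : ValuationSubring K) (hW : ∀ r ∈ RR G A B, r ∈ W) : Ideal (RR G A B) :=
    { carrier := {r | W.valuation (r : K) < 1}
      add_mem' := fun {x y} hx hy => by
        have hx' : W.valuation (x : K) < 1 := hx
        have hy' : W.valuation (y : K) < 1 := hy
        exact Valuation.map_add_lt _ hx' hy'
      zero_mem' := by
        show W.valuation ((0 : RR G A B) : K) < 1
        simp
      smul_mem' := fun c x hx => by
        have hx' : W.valuation (x : K) < 1 := hx
        show W.valuation ((c : K) * (x : K)) < 1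
        rw [map_mul]
        calc W.valuation (c : K) * W.valuation (x : K) ≤ 1 * W.valuation (x : K) := by
              gcongr
              exact (W.valuation_le_one_iff _).2 (hW c c.2)
          _ = W.valuation (x : K) := one_mul _
          _ < 1 := hx' }
  have hcen : ∀ (W : ValuationSubring K) (hW : ∀ r ∈ RR G A B, r ∈ W), (cen W hW).IsPrime := by
    intro W hW
    constructor
    · rw [Ideal.ne_top_iff_one]
      intro h1
      have h1' : W.valuation ((1 : RR G A B) : K) < 1 := h1
      simp at h1'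
    · intro x y hxy
      have hxy' : W.valuation ((x : K) * (y : K)) < 1 := hxy
      by_contra hcon
      push Not at hcon
      have hx : ¬ W.valuation (x : K) < 1 := hcon.1
      have hy : ¬ W.valuation (y : K) < 1 := hcon.2
      have hx1 : W.valuation (x : K) = 1 :=
        le_antisymm ((W.valuation_le_one_iff _).2 (hW x x.2)) (not_lt.1 hx)
      have hy1 : W.valuation (y : K) = 1 :=
        le_antisymm ((W.valuation_le_one_iff _).2 (hW y y.2)) (not_lt.1 hy)
      rw [map_mul, hx1, hy1, one_mul] at hxy'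
      exact lt_irrefl _ hxy'
  have hA : ∀ r ∈ RR G A B, r ∈ A := fun r hr => by
    have := (hr 1).1
    rwa [one_smul] at this
  have hB : ∀ r ∈ RR G A B, r ∈ B := fun r hr => by
    have := (hr 1).2
    rwa [one_smul] at this
  haveI := hcen A hA
  haveI := hcen B hB
  have hunder : (cen A hA).under S0 = (cen B hB).under S0 := by
    ext s
    change A.valuation (((s : RR G A B) : K)) < 1 ↔ B.valuation (((s : RR G A B) : K)) < 1
    have hs : ∀ σ : G, σ • ((s : RR G A B) : K) = ((s : RR G A B) : K) := fun σ =>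
      congrArg Subtype.val (s.2 σ)
    have e1 := o6_val (G := G) A ⟨((s : RR G A B) : K), hs⟩
    have e2 := o6_val (G := G) B ⟨((s : RR G A B) : K), hs⟩
    rw [h] at e1
    exact e1.trans e2.symm
  obtain ⟨g, hg⟩ := Algebra.IsInvariant.exists_smul_of_under_eq_of_profinite (G := G)
    (cen A hA) (cen B hB) hunder
  have hg' : ∀ r : RR G A B, A.valuation (r : K) < 1 ↔ B.valuation (g • (r : K)) < 1 := by
    intro r
    have h1 : g • r ∈ cen B hB ↔ r ∈ cen A hA := by
      rw [hg]
      exact Ideal.smul_mem_pointwise_smul_iff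
    exact h1.symm
  refine ⟨g, fun x => ?_⟩
  obtain ⟨y, hy, z, hz, hyz, hyA, hyB⟩ := o6_yz hc A B h x
  constructor
  · intro hx
    have h1 : ¬ B.valuation (g • y) < 1 := fun h2 => hyA hx ((hg' ⟨y, hy⟩).2 h2)
    have h2 : B.valuation (g • y) = 1 :=
      le_antisymm ((B.valuation_le_one_iff _).2 (hy g).2) (not_lt.1 h1)
    have h3 : g • y * g • x = g • z := by rw [← smul_mul', hyz]
    rw [← B.valuation_le_one_iff]
    have h4 : B.valuation (g • y) * B.valuation (g • x) ≤ 1 := by
      rw [← map_mul, h3]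
      exact (B.valuation_le_one_iff _).2 (hz g).2
    rwa [h2, one_mul] at h4
  · intro hx
    have h1 : ¬ A.valuation y < 1 := fun h2 => hyB g hx ((hg' ⟨y, hy⟩).1 h2)
    have h2 : A.valuation y = 1 :=
      le_antisymm ((A.valuation_le_one_iff _).2 (hA y hy)) (not_lt.1 h1)
    rw [← A.valuation_le_one_iff]
    have h4 : A.valuation y * A.valuation x ≤ 1 := by
      rw [← map_mul, hyz]
      exact (A.valuation_le_one_iff _).2 (hA z hz)
    rwa [h2, one_mul] at h4

end O6

end Pool.Helper37.ETC
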