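import Pool.Agent.Helper37.ETC.Defs

/-!
# ETC-P7, P8: Steinberg data of dimension one are orderings; finite fields (helper43)
-/

set_option autoImplicit false

namespace Pool.Helper37.ETC

open Module

private theorem p7_zmod2 : ∀ c d : ZMod 2, c ≠ 0 → d ≠ 0 → d + c = 0 := by decide

section PartI

variable {p : ℕ} [Fact p.Prime] {F V : Type*} [Field F] [AddCommGroup V] [Module (ZMod p) V]

private theorem p7_one (D : SD p F V) : D.φ 1 = 0 := by
  have h := D.mul (one_ne_zero (α := F)) one_ne_zero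
  rw [mul_one] at h
  exact left_eq_add.1 h

private theorem p7_inv (D : SD p F V) {x : F} (hx : x ≠ 0) : D.φ x⁻¹ = - D.φ x := by
  have h := D.mul hx (inv_ne_zero hx)
  rw [mul_inv_cancel₀ hx, p7_one] at h
  exact (neg_eq_of_add_eq_zero_right h.symm).symm

private theorem p7_div (D : SD p F V) {x y : F} (hx : x ≠ 0) (hy : y ≠ 0) :
    D.φ (x / y) = D.φ x - D.φ y := by
  rw [div_eq_mul_inv, D.mul hx (inv_ne_zero hy), p7_inv D hy, sub_eq_add_neg]

private theorem p7_neg (D : SD p F V) {x : F} (hx : x ≠ 0) : D.ω (D.φ x) (D.φ (-x)) = 0 := by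
  by_cases h1 : x = 1
  · rw [h1, p7_one, map_zero, LinearMap.zero_apply]
  have hx1 : (1 : F) - x ≠ 0 := fun h => h1 (sub_eq_zero.1 h).symm
  have hi : x⁻¹ ≠ 1 := fun h => h1 (inv_eq_one.1 h)
  have hxi : (1 : F) - x⁻¹ ≠ 0 := fun h => hi (sub_eq_zero.1 h).symm
  have e : -x = (1 - x) / (1 - x⁻¹) := by
    rw [eq_div_iff hxi]
    field_simp
    ring
  have h2 := D.stein (inv_ne_zero hx) hi
  rw [p7_inv D hx, map_neg, LinearMap.neg_apply, neg_eq_zero] at h2
  rw [e, p7_div D hx1 hxi, map_sub, D.stein hx h1, h2, sub_zero]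

private theorem p7_anti (D : SD p F V) (v w : V) : D.ω v w = - D.ω w v := by
  obtain ⟨x, hx, rfl⟩ := D.surj v
  obtain ⟨y, hy, rfl⟩ := D.surj w
  have n1 : (-1 : F) ≠ 0 := neg_ne_zero.2 one_ne_zero
  have h1 := p7_neg D hx
  have h2 := p7_neg D hy
  have h3 := p7_neg D (mul_ne_zero hx hy)
  rw [← neg_one_mul, D.mul n1 hx] at h1
  rw [← neg_one_mul, D.mul n1 hy] at h2
  rw [← neg_one_mul, D.mul n1 (mul_ne_zero hx hy), D.mul hx hy] at h3
  simp only [map_add, LinearMap.add_apply] at h1 h2 h3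
  linear_combination h3 - h1 - h2

private theorem p7_three (D : SD p F V) {a b c : F} (ha : a ≠ 0) (hb : b ≠ 0) (hc : c ≠ 0)
    (h : a = b + c) : D.ω (D.φ b - D.φ a) (D.φ c - D.φ a) = 0 := by
  rw [← p7_div D hb ha, ← p7_div D hc ha]
  have e : c / a = 1 - b / a := by
    rw [eq_sub_iff_add_eq, ← add_div, add_comm, ← h, div_self ha]
  rw [e]
  apply D.stein (div_ne_zero hb ha)
  intro h1
  rw [h1, sub_self] at e
  exact (div_ne_zero hc ha) e

/-- P7 (dimension one) -/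
theorem SD.ord (D : SD p F V) (h : finrank (ZMod p) V = 1) :
    p = 2 ∧ IsPos {x : F | x ≠ 0 ∧ D.φ x = 0} ∧
      ∀ x y : F, D.ω (D.φ x) (D.φ y) = 0 ↔ D.φ x = 0 ∨ D.φ y = 0 := by
  obtain ⟨v, hv, hspan⟩ := finrank_eq_one_iff'.1 h
  have hvv : D.ω v v ≠ 0 := by
    intro h0
    apply hv
    apply D.nondeg
    intro w
    obtain ⟨c, rfl⟩ := hspan w
    rw [map_smul, h0, smul_zero]
  have hzero : ∀ u w : V, D.ω u w = 0 ↔ u = 0 ∨ w = 0 := by
    intro u w
    obtain ⟨c, rfl⟩ := hspan u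
    obtain ⟨d, rfl⟩ := hspan w
    rw [map_smul, map_smul, LinearMap.smul_apply, smul_eq_zero, smul_eq_zero, smul_eq_zero,
      smul_eq_zero]
    tauto
  have hp2 : p = 2 := by
    have h1 := p7_anti D v v
    have h2 : (2 : ZMod p) * D.ω v v = 0 := by linear_combination h1
    rcases mul_eq_zero.1 h2 with h3 | h3
    · have h4 : ((2 : ℕ) : ZMod p) = 0 := by exact_mod_cast h3
      have h5 := (ZMod.natCast_eq_zero_iff 2 p).1 h4
      exact ((Nat.prime_dvd_prime_iff_eq (Fact.out : p.Prime) Nat.prime_two).1 h5)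
    · exact absurd h3 hvv
  have n1 : (-1 : F) ≠ 0 := neg_ne_zero.2 one_ne_zero
  have hneg1 : D.φ (-1) ≠ 0 := by
    intro h0
    obtain ⟨x, hx, hxv⟩ := D.surj v
    have h1 := p7_neg D hx
    rw [← neg_one_mul, D.mul n1 hx, h0, zero_add, hxv] at h1
    exact hvv h1
  refine ⟨hp2, ⟨fun h0 => h0.1 rfl, ?_, ?_, ?_⟩, fun x y => hzero _ _⟩
  · rintro x y ⟨hx, hx0⟩ ⟨hy, hy0⟩
    have hs : x + y ≠ 0 := by
      intro h0
      have e : y = -1 * x := by rw [neg_one_mul]; exact eq_neg_of_add_eq_zero_right h0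
      rw [e, D.mul n1 hx, hx0, add_zero] at hy0
      exact hneg1 hy0
    refine ⟨hs, ?_⟩
    have h1 := p7_three D hs hx hy rfl
    rw [hx0, hy0, zero_sub, hzero] at h1
    rcases h1 with h1 | h1 <;> exact neg_eq_zero.1 h1
  · rintro x y ⟨hx, hx0⟩ ⟨hy, hy0⟩
    exact ⟨mul_ne_zero hx hy, by rw [D.mul hx hy, hx0, hy0, add_zero]⟩
  · intro x hx
    by_cases h0 : D.φ x = 0
    · exact Or.inl ⟨hx, h0⟩
    · right
      refine ⟨neg_ne_zero.2 hx, ?_⟩
      subst hp2
      rw [← neg_one_mul, D.mul n1 hx]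
      obtain ⟨c, hc⟩ := hspan (D.φ x)
      obtain ⟨d, hd⟩ := hspan (D.φ (-1))
      have hc0 : c ≠ 0 := by
        rintro rfl
        exact h0 (by rw [← hc, zero_smul])
      have hd0 : d ≠ 0 := by
        rintro rfl
        exact hneg1 (by rw [← hd, zero_smul])
      rw [← hc, ← hd, ← add_smul, p7_zmod2 c d hc0 hd0, zero_smul]

/-- P8 (finite fields) -/
theorem SD.finite_field [Finite F] (D : SD p F V) (v : V) : v = 0 := by
  classical
  by_contra hv
  -- the colours are multiples of one colour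
  obtain ⟨g, hg⟩ := IsCyclic.exists_generator (α := Fˣ)
  have hpow : ∀ n : ℕ, D.φ ((g : F) ^ n) = (n : ZMod p) • D.φ g := by
    intro n
    induction n with
    | zero => rw [pow_zero, p7_one, Nat.cast_zero, zero_smul]
    | succ n ih =>
      rw [pow_succ, D.mul (pow_ne_zero _ g.ne_zero) g.ne_zero, ih, Nat.cast_succ, add_smul,
        one_smul]
  have hspan : ∀ w : V, ∃ c : ZMod p, c • D.φ g = w := by
    intro w
    obtain ⟨x, hx, rfl⟩ := D.surj w
    have hfin : IsOfFinOrder g := isOfFinOrder_of_finite g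
    obtain ⟨n, hn⟩ := (hfin.mem_zpowers_iff_mem_range_orderOf).1 (hg (Units.mk0 x hx)) |>
      Finset.mem_image.1
    refine ⟨(n : ZMod p), ?_⟩
    rw [← hpow]
    have := congrArg (fun u : Fˣ => (u : F)) hn.2
    simp only [Units.val_pow_eq_pow_val, Units.val_mk0] at this
    rw [this]
  have hg0 : D.φ g ≠ 0 := by
    intro h0
    obtain ⟨c, hc⟩ := hspan v
    exact hv (by rw [← hc, h0, smul_zero])
  have h1 : finrank (ZMod p) V = 1 := finrank_eq_one_iff'.2 ⟨D.φ g, hg0, hspan⟩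
  obtain ⟨-, hP, -⟩ := D.ord h1
  have hone : (1 : F) ∈ {x : F | x ≠ 0 ∧ D.φ x = 0} := ⟨one_ne_zero, p7_one D⟩
  have hnat : ∀ n : ℕ, ((n + 1 : ℕ) : F) ∈ {x : F | x ≠ 0 ∧ D.φ x = 0} := by
    intro n
    induction n with
    | zero => simpa using hone
    | succ n ih =>
      rw [Nat.cast_succ]
      exact hP.add ih hone
  have := Fintype.ofFinite F
  have h2 : ((Fintype.card F : ℕ) : F) = 0 := by simp
  have h3 := hnat (Fintype.card F - 1)
  rw [Nat.sub_add_cancel Fintype.card_pos, h2] at h3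
  exact h3.1 rfl

end PartI

end Pool.Helper37.ETC
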